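import Pool.Agent.Helper62.LH.StG

set_option autoImplicit false

open Set Filter Topology MeasureTheory
open scoped ContDiff ENNReal

noncomputable section

namespace Pool.Agent.Helper65.LH

open Helper62.LH

/-- mean value inequality from `0` -/
theorem mvt0 (g g' : ℝ → ℝ) (C : ℝ) (k : ℕ) (hC : 0 ≤ C)
    (hg : ∀ t, |t| ≤ 1 → HasDerivAt g (g' t) t)
    (g0 : g 0 = 0) (hb : ∀ t, |t| ≤ 1 → |g' t| ≤ C * |t| ^ k) (t : ℝ) (ht : |t| ≤ 1) :
    |g t| ≤ C * |t| ^ (k + 1) := by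
  have h0 : (0 : ℝ) ∈ Icc (-|t|) |t| := ⟨by simp, by simp⟩
  have h1 : t ∈ Icc (-|t|) |t| := ⟨neg_abs_le t, le_abs_self t⟩
  have h2 := (convex_Icc (-|t|) |t|).norm_image_sub_le_of_norm_hasDerivWithin_le (f := g) (f' := g')
    (C := C * |t| ^ k) (x := 0) (y := t)
    (fun x hx => (hg x ((abs_le.2 hx).trans ht)).hasDerivWithinAt)
    (fun x hx => by
      have hx' : |x| ≤ |t| := abs_le.2 hx
      refine (hb x (hx'.trans ht)).trans ?_
      exact mul_le_mul_of_nonneg_left (pow_le_pow_left₀ (abs_nonneg x) hx' k) hC) h0 h1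
  rw [g0, sub_zero, sub_zero, Real.norm_eq_abs, Real.norm_eq_abs] at h2
  calc |g t| ≤ C * |t| ^ k * |t| := h2
    _ = C * |t| ^ (k + 1) := by ring

/-- Taylor expansion along a parabola -/
theorem tay {n : ℕ} (F : E n → ℝ) (hF : ContDiff ℝ ∞ F) (x v a : E n) : ∃ C : ℝ, 0 ≤ C ∧
    ∀ h : ℝ, |h| ≤ 1 → |F (x + h • v - (h ^ 2 / 2) • a) - F x - h * fderiv ℝ F x v -
      h ^ 2 / 2 * (fderiv ℝ (fderiv ℝ F) x v v - fderiv ℝ F x a)| ≤ C * |h| ^ 3 := by
  set X : ℝ → E n := fun h => x + h • v - (h ^ 2 / 2) • a with hX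
  have hXs : ContDiff ℝ ∞ X := by
    simp only [hX]
    fun_prop
  have hX0 : X 0 = x := by simp [hX]
  have hX' : ∀ h, HasDerivAt X (v - h • a) h := by
    intro h
    have h1 : HasDerivAt (fun h : ℝ => h • v) ((1 : ℝ) • v) h := (hasDerivAt_id h).smul_const v
    have h2 : HasDerivAt (fun h : ℝ => (h ^ 2 / 2) • a) ((h : ℝ) • a) h := by
      have h3 : HasDerivAt (fun h : ℝ => h ^ 2 / 2) h h := by
        have := (hasDerivAt_pow 2 h).div_const 2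
        refine this.congr_deriv ?_
        push_cast
        ring
      exact h3.smul_const a
    have h4 := (h1.const_add x).sub h2
    rw [one_smul] at h4
    exact h4
  have hF1 : ContDiff ℝ ∞ (fderiv ℝ F) := (contDiff_infty_iff_fderiv.1 hF).2
  have hFd : Differentiable ℝ F := (contDiff_infty_iff_fderiv.1 hF).1
  have hF1d : Differentiable ℝ (fderiv ℝ F) := (contDiff_infty_iff_fderiv.1 hF1).1
  set f : ℝ → ℝ := fun h => F (X h) with hf
  set f1 : ℝ → ℝ := fun h => fderiv ℝ F (X h) (v - h • a) with hf1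
  have hf1s : ContDiff ℝ ∞ f1 := by
    simp only [hf1]
    exact (hF1.comp hXs).clm_apply (by fun_prop)
  have hfd : ∀ h, HasDerivAt f (f1 h) h := fun h =>
    (hFd (X h)).hasFDerivAt.comp_hasDerivAt h (hX' h)
  have hf2s : ContDiff ℝ ∞ (deriv f1) := (contDiff_infty_iff_deriv.1 hf1s).2
  have hf1d : ∀ h, HasDerivAt f1 (deriv f1 h) h := fun h =>
    ((contDiff_infty_iff_deriv.1 hf1s).1 h).hasDerivAt
  have hf2d : ∀ h, HasDerivAt (deriv f1) (deriv (deriv f1) h) h := fun h =>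
    ((contDiff_infty_iff_deriv.1 hf2s).1 h).hasDerivAt
  have hf3s : Continuous (deriv (deriv f1)) := ((contDiff_infty_iff_deriv.1 hf2s).2).continuous
  have hf20 : deriv f1 0 = fderiv ℝ (fderiv ℝ F) x v v - fderiv ℝ F x a := by
    have h1 : HasDerivAt (fun h : ℝ => fderiv ℝ F (X h)) (fderiv ℝ (fderiv ℝ F) (X 0) (v - (0 : ℝ) • a)) 0 :=
      (hF1d (X 0)).hasFDerivAt.comp_hasDerivAt 0 (hX' 0)
    have h2 : HasDerivAt (fun h : ℝ => v - h • a) (-a) 0 := by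
      have := ((hasDerivAt_id (0 : ℝ)).smul_const a).const_sub v
      simpa using this
    have h3 := h1.clm_apply h2
    have h4 := h3.deriv
    rw [hX0] at h4
    simp only [zero_smul, sub_zero] at h4
    rw [hf1, h4, map_neg]
    ring
  obtain ⟨C, hC⟩ := (isCompact_Icc (a := (-1 : ℝ)) (b := 1)).exists_bound_of_continuousOn
    hf3s.continuousOn
  have hC0 : 0 ≤ C := (norm_nonneg _).trans (hC 0 ⟨by norm_num, by norm_num⟩)
  refine ⟨C, hC0, fun h hh => ?_⟩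
  have s2 : ∀ t, |t| ≤ 1 → |deriv f1 t - deriv f1 0| ≤ C * |t| ^ (0 + 1) := by
    intro t ht
    refine mvt0 (fun t => deriv f1 t - deriv f1 0) (deriv (deriv f1)) C 0 hC0
      (fun t _ => (hf2d t).sub_const _) (by simp) (fun t ht => ?_) t ht
    have := hC t (abs_le.1 ht)
    simpa using this
  have s1 : ∀ t, |t| ≤ 1 → |f1 t - f1 0 - t * deriv f1 0| ≤ C * |t| ^ (0 + 1 + 1) := by
    intro t ht
    refine mvt0 (fun t => f1 t - f1 0 - t * deriv f1 0) (fun t => deriv f1 t - deriv f1 0) C (0 + 1)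
      hC0 (fun t _ => ?_) (by simp) s2 t ht
    have h1 := ((hf1d t).sub_const (f1 0)).sub ((hasDerivAt_id t).mul_const (deriv f1 0))
    refine h1.congr_deriv ?_
    ring
  have s0 := mvt0 (fun t => f t - f 0 - t * f1 0 - t ^ 2 / 2 * deriv f1 0)
    (fun t => f1 t - f1 0 - t * deriv f1 0) C (0 + 1 + 1) hC0 (fun t _ => by
      have h1 := (((hfd t).sub_const (f 0)).sub ((hasDerivAt_id t).mul_const (f1 0))).sub
        (((hasDerivAt_pow 2 t).div_const 2).mul_const (deriv f1 0))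
      refine h1.congr_deriv ?_
      push_cast
      ring) (by simp) s1 h hh
  have e0 : f 0 = F x := by simp only [hf, hX0]
  have e1 : f1 0 = fderiv ℝ F x v := by simp [hf1, hX0]
  simp only [e0, e1, hf20] at s0
  exact s0

/-- `b` is Lipschitz on Euclidean balls -/
theorem blip (hCmp : StCmp) (hMet : StMet) {n : ℕ} (g : E n → Bl n) (hg : IsMet g) (b : E n → ℝ)
    (hb : ∀ x y, |b x - b y| ≤ dg g x y) (R : ℝ) : ∃ L : ℝ, 0 ≤ L ∧
    ∀ z ∈ Metric.closedBall (0 : E n) R, ∀ z' ∈ Metric.closedBall (0 : E n) R,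
      |b z - b z'| ≤ L * ‖z - z'‖ := by
  obtain ⟨m, M, hm, hM, hmM⟩ := hCmp n g hg (Metric.closedBall (0 : E n) R)
    (isCompact_closedBall 0 R)
  refine ⟨√M, Real.sqrt_nonneg M, fun z hz z' hz' => (hb z z').trans ?_⟩
  set c : ℝ → E n := fun τ => z + τ • (z' - z) with hc
  have hcs : ContDiff ℝ 1 c := by
    simp only [hc]
    fun_prop
  have hcd : ∀ τ, deriv c τ = z' - z := by
    intro τ
    have h1 : HasDerivAt c ((1 : ℝ) • (z' - z)) τ :=
      ((hasDerivAt_id τ).smul_const (z' - z)).const_add z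
    rw [h1.deriv, one_smul]
  have h1 := (hMet n g hg).1 c hcs 0 1 zero_le_one
  have e0 : c 0 = z := by simp [hc]
  have e1 : c 1 = z' := by simp [hc]
  rw [e0, e1] at h1
  refine h1.trans ?_
  have h2 := intervalIntegral.norm_integral_le_of_norm_le_const (a := (0 : ℝ)) (b := 1)
    (f := fun τ => nr g (c τ) (deriv c τ)) (C := √M * ‖z - z'‖) (fun τ hτ => ?_)
  · rw [sub_zero, abs_one, mul_one] at h2
    exact (le_abs_self _).trans h2
  · rw [uIoc_of_le zero_le_one] at hτ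
    have h3 : c τ ∈ Metric.closedBall (0 : E n) R := by
      have h4 := (convex_closedBall (0 : E n) R) hz hz' (a := 1 - τ) (b := τ) (by linarith [hτ.2])
        hτ.1.le (by ring)
      have h5 : (1 - τ) • z + τ • z' = c τ := by
        simp only [hc]
        module
      rwa [h5] at h4
    have h6 := (hmM (c τ) h3 (z' - z)).2
    rw [nr, hcd, Real.norm_of_nonneg (Real.sqrt_nonneg _)]
    calc √(g (c τ) (z' - z) (z' - z)) ≤ √(M * ‖z' - z‖ ^ 2) := Real.sqrt_le_sqrt h6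
      _ = √M * ‖z - z'‖ := by
        rw [Real.sqrt_mul hM.le, Real.sqrt_sq (norm_nonneg _), norm_sub_rev]

theorem bcont {n : ℕ} (b : E n → ℝ) (h : ∀ R : ℝ, ∃ L : ℝ, 0 ≤ L ∧
    ∀ z ∈ Metric.closedBall (0 : E n) R, ∀ z' ∈ Metric.closedBall (0 : E n) R,
      |b z - b z'| ≤ L * ‖z - z'‖) : Continuous b := by
  rw [continuous_iff_continuousAt]
  intro x
  obtain ⟨L, hL, hb⟩ := h (‖x‖ + 1)
  have hx : x ∈ Metric.closedBall (0 : E n) (‖x‖ + 1) := by simp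
  have hnh : Metric.closedBall (0 : E n) (‖x‖ + 1) ∈ 𝓝 x := by
    refine Filter.mem_of_superset (Metric.ball_mem_nhds x one_pos) fun z hz => ?_
    rw [mem_ball_iff_norm] at hz
    rw [mem_closedBall_zero_iff]
    calc ‖z‖ = ‖x + (z - x)‖ := by congr 1; abel
      _ ≤ ‖x‖ + ‖z - x‖ := norm_add_le _ _
      _ ≤ ‖x‖ + 1 := by linarith
  rw [ContinuousAt, tendsto_iff_norm_sub_tendsto_zero]
  have h1 : Tendsto (fun z => L * ‖z - x‖) (𝓝 x) (𝓝 0) := by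
    have h2 : Continuous fun z : E n => L * ‖z - x‖ := by fun_prop
    have h3 := h2.tendsto x
    simpa using h3
  refine squeeze_zero' (Eventually.of_forall fun z => norm_nonneg _) ?_ h1
  filter_upwards [hnh] with z hz
  exact hb z hz x hx

/-- passage to the limit -/
theorem second (D A B h₁ : ℝ) (hB : 0 ≤ B) (hh : 0 < h₁)
    (h : ∀ t, 0 < t → t ≤ h₁ → -(A * t ^ 2 + B * t ^ 3) ≤ t ^ 2 * D) : -A ≤ D := by
  by_contra hlt
  push Not at hlt
  set t := min h₁ ((-A - D) / (2 * (B + 1))) with ht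
  have ht0 : 0 < t := lt_min hh (by
    apply div_pos (by linarith)
    positivity)
  have h1 := h t ht0 (min_le_left _ _)
  have h2 : t ≤ (-A - D) / (2 * (B + 1)) := min_le_right _ _
  rw [le_div_iff₀ (by positivity)] at h2
  have h3 : -A - B * t ≤ D := by
    have h4 : t ^ 2 * (-A - B * t) ≤ t ^ 2 * D := by
      calc t ^ 2 * (-A - B * t) = -(A * t ^ 2 + B * t ^ 3) := by ring
        _ ≤ _ := h1
    exact le_of_mul_le_mul_left h4 (by positivity)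
  nlinarith

/-- the comparison of the perturbed curve with the geodesic, one time -/
theorem side {n : ℕ} (Γ : E n → Bm n) (R₀ MΓ LΓ η Cδ Cg : ℝ) (hMΓ : 0 ≤ MΓ)
    (hη0 : 0 < η) (hη1 : η ≤ 1) (hCδ : 0 ≤ Cδ) (hCg : 0 ≤ Cg)
    (hΓa : ∀ z ∈ Metric.closedBall (0 : E n) (R₀ + 2), ∀ p q : E n,
      ‖Γ z p q‖ ≤ MΓ * ‖p‖ * ‖q‖)
    (hL : ∀ z ∈ Metric.closedBall (0 : E n) (R₀ + 2), ∀ z' ∈ Metric.closedBall (0 : E n) (R₀ + 2),
      ‖Γ z - Γ z'‖ ≤ LΓ * ‖z - z'‖) (hLΓ : 0 ≤ LΓ)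
    (x v y : E n) (hx : x ∈ Metric.closedBall (0 : E n) R₀) (hv : ‖v‖ = 1 / 2) (hy : ‖y‖ ≤ 1)
    (δ0 δt d1 d2 : ℝ) (h0 : 0 ≤ δ0) (h0' : δ0 ≤ η) (h1 : |d1| ≤ η / 2) (h2 : |d2| ≤ η * (1 + MΓ))
    (t : ℝ) (ht : |t| ≤ 1) (ht' : |t| * (3 + 2 * MΓ + Cδ + Cg) ≤ 1)
    (hδt : |δt - δ0 - t * d1 - t ^ 2 / 2 * d2| ≤ Cδ * |t| ^ 3) (βt : E n)
    (hβ : ‖βt - (x - δ0 • y + t • (v - d1 • y) -
      (t ^ 2 / 2) • Γ (x - δ0 • y) (v - d1 • y) (v - d1 • y))‖ ≤ Cg * |t| ^ 3) :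
    x + t • v - (t ^ 2 / 2) • Γ x v v - δt • y ∈ Metric.closedBall (0 : E n) (R₀ + 2) ∧
    βt ∈ Metric.closedBall (0 : E n) (R₀ + 2) ∧
    ‖x + t • v - (t ^ 2 / 2) • Γ x v v - δt • y - βt‖ ≤
      t ^ 2 / 2 * ((LΓ + 3 * MΓ + 1) * η) + (Cδ + Cg) * |t| ^ 3 := by
  set z₀ := x - δ0 • y with hz₀
  set w := v - d1 • y with hw
  set G0 := Γ z₀ w w with hG0
  set a := Γ x v v with ha
  set r := δt - δ0 - t * d1 - t ^ 2 / 2 * d2 with hr
  set e := βt - (z₀ + t • w - (t ^ 2 / 2) • G0) with he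
  have eZ : x + t • v - (t ^ 2 / 2) • a - δt • y = z₀ + t • w - (t ^ 2 / 2) • (a + d2 • y) - r • y := by
    rw [hz₀, hw, hr]
    module
  have eβ : βt = z₀ + t • w - (t ^ 2 / 2) • G0 + e := by
    rw [he]
    abel
  have eD : x + t • v - (t ^ 2 / 2) • a - δt • y - βt =
      -((t ^ 2 / 2) • (a + d2 • y - G0)) - r • y - e := by
    rw [eZ, eβ]
    module
  rw [mem_closedBall_zero_iff] at hx
  have hδy : ‖δ0 • y‖ ≤ η := by
    rw [norm_smul, Real.norm_of_nonneg h0]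
    calc δ0 * ‖y‖ ≤ η * 1 := mul_le_mul h0' hy (norm_nonneg _) hη0.le
      _ = η := mul_one _
  have hz₀n : ‖z₀‖ ≤ R₀ + 1 := by
    calc ‖z₀‖ ≤ ‖x‖ + ‖δ0 • y‖ := norm_sub_le _ _
      _ ≤ R₀ + 1 := by linarith
  have hd1y : ‖d1 • y‖ ≤ η / 2 := by
    rw [norm_smul, Real.norm_eq_abs]
    calc |d1| * ‖y‖ ≤ η / 2 * 1 := mul_le_mul h1 hy (norm_nonneg _) (by linarith)
      _ = η / 2 := mul_one _
  have hwn : ‖w‖ ≤ 1 := by
    calc ‖w‖ ≤ ‖v‖ + ‖d1 • y‖ := norm_sub_le _ _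
      _ ≤ 1 := by linarith
  have hd2y : ‖d2 • y‖ ≤ η * (1 + MΓ) := by
    rw [norm_smul, Real.norm_eq_abs]
    calc |d2| * ‖y‖ ≤ (η * (1 + MΓ)) * 1 := mul_le_mul h2 hy (norm_nonneg _) (by positivity)
      _ = _ := mul_one _
  have hxB : x ∈ Metric.closedBall (0 : E n) (R₀ + 2) := by
    rw [mem_closedBall_zero_iff]
    linarith
  have hzB : z₀ ∈ Metric.closedBall (0 : E n) (R₀ + 2) := by
    rw [mem_closedBall_zero_iff]
    linarith
  have han : ‖a‖ ≤ MΓ := by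
    have := hΓa x hxB v v
    rw [hv] at this
    rw [ha]
    refine this.trans ?_
    nlinarith only [hMΓ]
  have hGn : ‖G0‖ ≤ MΓ := by
    have h3 := hΓa z₀ hzB w w
    rw [hG0]
    refine h3.trans ?_
    have h4 : ‖w‖ * ‖w‖ ≤ 1 := mul_le_one₀ hwn (norm_nonneg _) hwn
    calc MΓ * ‖w‖ * ‖w‖ = MΓ * (‖w‖ * ‖w‖) := by ring
      _ ≤ MΓ * 1 := mul_le_mul_of_nonneg_left h4 hMΓ
      _ = MΓ := mul_one _
  have hry : ‖r • y‖ ≤ Cδ * |t| ^ 3 := by
    rw [norm_smul, Real.norm_eq_abs]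
    calc |r| * ‖y‖ ≤ (Cδ * |t| ^ 3) * 1 := mul_le_mul hδt hy (norm_nonneg _) (by positivity)
      _ = _ := mul_one _
  have ht2 : t ^ 2 = |t| ^ 2 := (sq_abs t).symm
  have ht0 := abs_nonneg t
  have ht2' : |t| ^ 2 ≤ |t| := by nlinarith only [ht, ht0]
  have ht3' : |t| ^ 3 ≤ |t| := by
    calc |t| ^ 3 = |t| ^ 2 * |t| := by ring
      _ ≤ 1 * |t| := mul_le_mul_of_nonneg_right (ht2'.trans ht) ht0
      _ = |t| := one_mul _
  have htw : ‖t • w‖ ≤ |t| := by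
    rw [norm_smul, Real.norm_eq_abs]
    calc |t| * ‖w‖ ≤ |t| * 1 := mul_le_mul_of_nonneg_left hwn ht0
      _ = _ := mul_one _
  have hsm : ∀ p : E n, ‖(t ^ 2 / 2) • p‖ = |t| ^ 2 / 2 * ‖p‖ := by
    intro p
    rw [norm_smul, Real.norm_of_nonneg (by positivity), ht2]
  refine ⟨?_, ?_, ?_⟩
  · rw [mem_closedBall_zero_iff, eZ]
    have h3 : ‖(t ^ 2 / 2) • (a + d2 • y)‖ ≤ |t| * (1 + MΓ) := by
      rw [hsm]
      have h4 : ‖a + d2 • y‖ ≤ MΓ + (1 + MΓ) := by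
        exact (norm_add_le _ _).trans (add_le_add han (hd2y.trans
          (mul_le_of_le_one_left (by linarith only [hMΓ]) hη1)))
      calc |t| ^ 2 / 2 * ‖a + d2 • y‖ ≤ |t| / 2 * (MΓ + (1 + MΓ)) :=
            mul_le_mul (by linarith only [ht2']) h4 (norm_nonneg _) (by linarith only [ht0])
        _ ≤ |t| * (1 + MΓ) := by nlinarith only [ht0]
    have h5 : Cδ * |t| ^ 3 ≤ Cδ * |t| := mul_le_mul_of_nonneg_left ht3' hCδ
    calc ‖z₀ + t • w - (t ^ 2 / 2) • (a + d2 • y) - r • y‖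
        ≤ ‖z₀‖ + ‖t • w‖ + ‖(t ^ 2 / 2) • (a + d2 • y)‖ + ‖r • y‖ :=
          (norm_sub_le _ _).trans (add_le_add ((norm_sub_le _ _).trans
            (add_le_add (norm_add_le _ _) le_rfl)) le_rfl)
      _ ≤ (R₀ + 1) + |t| + |t| * (1 + MΓ) + Cδ * |t| := by
        linarith only [hz₀n, htw, h3, hry, h5]
      _ ≤ R₀ + 2 := by
        have h6 : 0 ≤ |t| * MΓ := mul_nonneg ht0 hMΓ
        have h7 : 0 ≤ |t| * Cg := mul_nonneg ht0 hCg
        nlinarith only [h6, h7, ht', ht0]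
  · rw [mem_closedBall_zero_iff, eβ]
    have h3 : ‖(t ^ 2 / 2) • G0‖ ≤ |t| * MΓ := by
      rw [hsm]
      exact mul_le_mul (by linarith only [ht2', ht0]) hGn (norm_nonneg _) ht0
    have h5 : Cg * |t| ^ 3 ≤ Cg * |t| := mul_le_mul_of_nonneg_left ht3' hCg
    calc ‖z₀ + t • w - (t ^ 2 / 2) • G0 + e‖
        ≤ ‖z₀‖ + ‖t • w‖ + ‖(t ^ 2 / 2) • G0‖ + ‖e‖ :=
          (norm_add_le _ _).trans (add_le_add ((norm_sub_le _ _).trans
            (add_le_add (norm_add_le _ _) le_rfl)) le_rfl)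
      _ ≤ (R₀ + 1) + |t| + |t| * MΓ + Cg * |t| := by
        linarith only [hz₀n, htw, h3, hβ, h5]
      _ ≤ R₀ + 2 := by
        have h6 : 0 ≤ |t| * MΓ := mul_nonneg ht0 hMΓ
        have h7 : 0 ≤ |t| * Cδ := mul_nonneg ht0 hCδ
        nlinarith only [h6, h7, ht', ht0]
  · rw [eD]
    have h3 : ‖a + d2 • y - G0‖ ≤ (LΓ + 3 * MΓ + 1) * η := by
      have e1 : a + d2 • y - G0 = (Γ x - Γ z₀) v v + Γ z₀ (d1 • y) v + Γ z₀ w (d1 • y) + d2 • y := by
        have e2 : d1 • y = v - w := by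
          rw [hw]
          abel
        rw [e2, ha, hG0]
        simp only [ContinuousLinearMap.sub_apply, map_sub]
        abel
      rw [e1]
      have n1 : ‖(Γ x - Γ z₀) v v‖ ≤ LΓ * η := by
        have h4 : ‖Γ x - Γ z₀‖ ≤ LΓ * η := by
          refine (hL x hxB z₀ hzB).trans (mul_le_mul_of_nonneg_left ?_ hLΓ)
          have e3 : x - z₀ = δ0 • y := by
            rw [hz₀]
            abel
          rw [e3]
          exact hδy
        refine (ContinuousLinearMap.le_opNorm₂ _ _ _).trans ?_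
        rw [hv]
        have : 0 ≤ LΓ * η := mul_nonneg hLΓ hη0.le
        nlinarith only [this, h4]
      have n2 : ‖Γ z₀ (d1 • y) v‖ ≤ MΓ * η := by
        refine (hΓa z₀ hzB _ _).trans ?_
        rw [hv]
        have h4 : MΓ * ‖d1 • y‖ ≤ MΓ * (η / 2) := mul_le_mul_of_nonneg_left hd1y hMΓ
        have : 0 ≤ MΓ * η := mul_nonneg hMΓ hη0.le
        linarith only [this, h4]
      have n3 : ‖Γ z₀ w (d1 • y)‖ ≤ MΓ * η := by
        refine (hΓa z₀ hzB _ _).trans ?_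
        have h4 : MΓ * ‖w‖ * ‖d1 • y‖ ≤ MΓ * 1 * (η / 2) :=
          mul_le_mul (mul_le_mul_of_nonneg_left hwn hMΓ) hd1y (norm_nonneg _) (by
            rw [mul_one]
            exact hMΓ)
        have : 0 ≤ MΓ * η := mul_nonneg hMΓ hη0.le
        linarith only [this, h4]
      calc ‖(Γ x - Γ z₀) v v + Γ z₀ (d1 • y) v + Γ z₀ w (d1 • y) + d2 • y‖
          ≤ ‖(Γ x - Γ z₀) v v‖ + ‖Γ z₀ (d1 • y) v‖ + ‖Γ z₀ w (d1 • y)‖ + ‖d2 • y‖ :=
            (norm_add_le _ _).trans (add_le_add ((norm_add_le _ _).trans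
              (add_le_add (norm_add_le _ _) le_rfl)) le_rfl)
        _ ≤ LΓ * η + MΓ * η + MΓ * η + η * (1 + MΓ) := by linarith only [n1, n2, n3, hd2y]
        _ = (LΓ + 3 * MΓ + 1) * η := by ring
    calc ‖-((t ^ 2 / 2) • (a + d2 • y - G0)) - r • y - e‖
        ≤ ‖(t ^ 2 / 2) • (a + d2 • y - G0)‖ + ‖r • y‖ + ‖e‖ := by
          refine (norm_sub_le _ _).trans (add_le_add ((norm_sub_le _ _).trans ?_) le_rfl)
          rw [norm_neg]
      _ ≤ t ^ 2 / 2 * ((LΓ + 3 * MΓ + 1) * η) + Cδ * |t| ^ 3 + Cg * |t| ^ 3 := by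
          refine add_le_add (add_le_add ?_ hry) hβ
          rw [hsm, ht2]
          exact mul_le_mul_of_nonneg_left h3 (by positivity)
      _ = _ := by ring

theorem lipG {n : ℕ} (Γ : E n → Bm n) (h : ContDiff ℝ ∞ Γ) (R : ℝ) : ∃ L M : ℝ, 0 ≤ L ∧ 0 ≤ M ∧
    (∀ z ∈ Metric.closedBall (0 : E n) R, ∀ z' ∈ Metric.closedBall (0 : E n) R,
      ‖Γ z - Γ z'‖ ≤ L * ‖z - z'‖) ∧
    ∀ z ∈ Metric.closedBall (0 : E n) R, ∀ p q : E n, ‖Γ z p q‖ ≤ M * ‖p‖ * ‖q‖ := by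
  obtain ⟨K, hK⟩ := h.contDiffOn.exists_lipschitzOnWith (by simp) (convex_closedBall (0 : E n) R)
    (isCompact_closedBall (0 : E n) R)
  have h1 : ∀ z ∈ Metric.closedBall (0 : E n) R, ∀ z' ∈ Metric.closedBall (0 : E n) R,
      ‖Γ z - Γ z'‖ ≤ K * ‖z - z'‖ := by
    intro z hz z' hz'
    have h2 := hK.dist_le_mul z hz z' hz'
    rwa [dist_eq_norm, dist_eq_norm] at h2
  refine ⟨K, ‖Γ 0‖ + K * |R|, K.2, by positivity, h1, fun z hz p q => ?_⟩
  have h0 : (0 : E n) ∈ Metric.closedBall (0 : E n) R := by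
    rw [mem_closedBall_zero_iff] at hz ⊢
    rw [norm_zero]
    exact (norm_nonneg z).trans hz
  have h2 := h1 z hz 0 h0
  rw [mem_closedBall_zero_iff] at hz
  rw [sub_zero] at h2
  have h3 : Γ z p q = Γ 0 p q + (Γ z - Γ 0) p q := by
    simp only [ContinuousLinearMap.sub_apply]
    abel
  have h5 : (K : ℝ) * ‖z‖ ≤ K * |R| := mul_le_mul_of_nonneg_left (hz.trans (le_abs_self R)) K.2
  have h6 := ContinuousLinearMap.le_opNorm₂ (Γ 0) p q
  have h7 := ContinuousLinearMap.le_opNorm₂ (Γ z - Γ 0) p q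
  have h8 : ‖Γ z - Γ 0‖ * ‖p‖ * ‖q‖ ≤ (K * |R|) * ‖p‖ * ‖q‖ :=
    mul_le_mul_of_nonneg_right (mul_le_mul_of_nonneg_right (h2.trans h5) (norm_nonneg _))
      (norm_nonneg _)
  rw [h3]
  refine (norm_add_le _ _).trans ?_
  calc ‖Γ 0 p q‖ + ‖(Γ z - Γ 0) p q‖ ≤ ‖Γ 0‖ * ‖p‖ * ‖q‖ + (K * |R|) * ‖p‖ * ‖q‖ :=
        add_le_add h6 (h7.trans h8)
    _ = (‖Γ 0‖ + K * |R|) * ‖p‖ * ‖q‖ := by ring

theorem mint {n : ℕ} (ρ : E n → ℝ) (hρ : Mol ρ) (b : E n → ℝ) (hbc : Continuous b) (p : E n)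
    (r : ℝ) : Integrable (fun y => ρ y * b (p - r • y)) := by
  apply Continuous.integrable_of_hasCompactSupport
  · exact hρ.smooth.continuous.mul (hbc.comp (by fun_prop))
  · refine HasCompactSupport.intro (isCompact_closedBall (0 : E n) 1) fun y hy => ?_
    rw [mem_closedBall_zero_iff, not_le] at hy
    rw [hρ.supp y hy, zero_mul]

/-- integration of the pointwise inequality -/
theorem integ {n : ℕ} (ρ : E n → ℝ) (hρ : Mol ρ) (b : E n → ℝ) (hbc : Continuous b)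
    (x p q : E n) (r rp rq Q : ℝ)
    (h : ∀ y, ‖y‖ ≤ 1 → 2 * b (x - r • y) - Q ≤ b (p - rp • y) + b (q - rq • y)) :
    2 * (∫ y, ρ y * b (x - r • y)) - Q ≤
      (∫ y, ρ y * b (p - rp • y)) + ∫ y, ρ y * b (q - rq • y) := by
  have hρi : Integrable ρ := by
    have := mint ρ hρ (fun _ => 1) continuous_const 0 0
    simpa using this
  have i0 := mint ρ hρ b hbc x r
  have i1 := mint ρ hρ b hbc p rp
  have i2 := mint ρ hρ b hbc q rq
  have h1 : ∫ y, (2 * (ρ y * b (x - r • y)) - Q * ρ y) ≤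
      ∫ y, (ρ y * b (p - rp • y) + ρ y * b (q - rq • y)) := by
    refine integral_mono ((i0.const_mul 2).sub (hρi.const_mul Q)) (i1.add i2) fun y => ?_
    simp only []
    by_cases hy : ‖y‖ ≤ 1
    · have h2 := mul_le_mul_of_nonneg_left (h y hy) (hρ.nonneg y)
      calc 2 * (ρ y * b (x - r • y)) - Q * ρ y = ρ y * (2 * b (x - r • y) - Q) := by ring
        _ ≤ ρ y * (b (p - rp • y) + b (q - rq • y)) := h2
        _ = _ := by ring
    · rw [not_le] at hy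
      rw [hρ.supp y hy]
      simp
  rw [integral_sub (i0.const_mul 2) (hρi.const_mul Q), integral_add i1 i2, integral_const_mul,
    integral_const_mul, hρ.int, mul_one] at h1
  exact h1

theorem hs_smul {n : ℕ} (Γ : E n → Bm n) (f : E n → ℝ) (x u : E n) (c : ℝ) :
    Hs Γ f x (c • u) (c • u) = c ^ 2 * Hs Γ f x u u := by
  unfold Hs
  simp only [map_smul, ContinuousLinearMap.smul_apply, smul_eq_mul]
  ring

theorem hSmc (hChr : StChr) (hCmp : StCmp) (hMet : StMet) (hSma : StSma) (hGe : StGe) : StSmc := by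
  intro n g Γ hg hΓ ρ hρ b hb hcvx K hK ε₀ hε₀
  obtain ⟨hΓs, -, -⟩ := hChr n g Γ hg hΓ
  have hbl := blip hCmp hMet g hg b hb
  have hbc := bcont b hbl
  obtain ⟨R, hR⟩ := hK.isBounded.subset_closedBall (0 : E n)
  obtain ⟨h₀, Cg, hh₀, hCg, hge⟩ := hGe n g Γ hg hΓ (Metric.closedBall (0 : E n) (R + 1))
    (isCompact_closedBall 0 _)
  obtain ⟨m, M, hm, -, hmM⟩ := hCmp n g hg (Metric.closedBall (0 : E n) (R + 2))
    (isCompact_closedBall 0 _)
  obtain ⟨L, hL, hLb⟩ := hbl (R + 2)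
  obtain ⟨LΓ, MΓ, hLΓ0, hMΓ0, hLΓ, hMΓ⟩ := lipG Γ hΓs (R + 2)
  set C₅ := LΓ + 3 * MΓ + 1 with hC₅
  have hC₅0 : 0 ≤ C₅ := by positivity
  have hLC : 0 ≤ L * C₅ := mul_nonneg hL hC₅0
  have hη0 : 0 < min 1 (ε₀ * m / (4 * (L * C₅ + 1))) := lt_min one_pos (by positivity)
  refine ⟨min 1 (ε₀ * m / (4 * (L * C₅ + 1))), hη0, fun δ hδ hδp x hx hx1 hx2 hx3 => ?_⟩
  set η := min 1 (ε₀ * m / (4 * (L * C₅ + 1))) with hη
  have hη1 : η ≤ 1 := min_le_left _ _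
  have hη2 : η * (4 * (L * C₅ + 1)) ≤ ε₀ * m := by
    rw [← le_div_iff₀ (by positivity)]
    exact min_le_right _ _
  have hS : ContDiff ℝ ∞ (sm ρ b δ) := (hSma n).2 ρ hρ b δ hbc hδ hδp
  have hxR : x ∈ Metric.closedBall (0 : E n) R := hR hx
  have hxR2 : x ∈ Metric.closedBall (0 : E n) (R + 2) :=
    Metric.closedBall_subset_closedBall (by linarith) hxR
  suffices key : ∀ v : E n, ‖v‖ = 1 / 2 → -(ε₀ * g x v v) ≤ Hs Γ (sm ρ b δ) x v v by
    intro v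
    by_cases hv : v = 0
    · subst hv
      simp [Hs]
    · have hvn : 0 < ‖v‖ := norm_pos_iff.2 hv
      set u : E n := (2 * ‖v‖)⁻¹ • v with hu
      have hun : ‖u‖ = 1 / 2 := by
        rw [hu, norm_smul, norm_inv, Real.norm_of_nonneg (by positivity)]
        field_simp
      have hvu : v = (2 * ‖v‖) • u := by
        rw [hu, smul_smul, mul_inv_cancel₀ (by positivity), one_smul]
      have h1 := key u hun
      rw [hvu, hs_smul]
      simp only [map_smul, ContinuousLinearMap.smul_apply, smul_eq_mul]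
      have h2 := mul_le_mul_of_nonneg_left h1 (sq_nonneg (2 * ‖v‖))
      calc -(ε₀ * (2 * ‖v‖ * (2 * ‖v‖ * g x u u))) = (2 * ‖v‖) ^ 2 * -(ε₀ * g x u u) := by ring
        _ ≤ _ := h2
  intro v hv
  obtain ⟨Cδ, hCδ, tδ⟩ := tay δ hδ x v (Γ x v v)
  obtain ⟨CS, hCS, tS⟩ := tay (sm ρ b δ) hS x v (Γ x v v)
  set d1 := fderiv ℝ δ x v with hd1
  set d2 := fderiv ℝ (fderiv ℝ δ) x v v - fderiv ℝ δ x (Γ x v v) with hd2
  have hd1' : |d1| ≤ η / 2 := by
    have h1 := (fderiv ℝ δ x).le_opNorm v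
    rw [Real.norm_eq_abs, hv] at h1
    rw [hd1]
    linarith
  have hΓv : ‖Γ x v v‖ ≤ MΓ := by
    have h1 := hMΓ x hxR2 v v
    rw [hv] at h1
    linarith
  have hd2' : |d2| ≤ η * (1 + MΓ) := by
    have h1 := ContinuousLinearMap.le_opNorm₂ (fderiv ℝ (fderiv ℝ δ) x) v v
    have h2 := (fderiv ℝ δ x).le_opNorm (Γ x v v)
    rw [Real.norm_eq_abs] at h1 h2
    rw [hv] at h1
    have h3 : ‖fderiv ℝ δ x‖ * ‖Γ x v v‖ ≤ η * MΓ :=
      mul_le_mul hx2 hΓv (norm_nonneg _) hη0.le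
    have h4 := abs_sub (fderiv ℝ (fderiv ℝ δ) x v v) (fderiv ℝ δ x (Γ x v v))
    rw [hd2]
    linarith
  set q := 3 + 2 * MΓ + Cδ + Cg with hq
  have hq0 : 3 ≤ q := by
    rw [hq]
    linarith
  have hh₁ : 0 < min h₀ (1 / q) := lt_min hh₀ (by positivity)
  -- pointwise
  have P : ∀ t, 0 < t → t ≤ min h₀ (1 / q) → ∀ y : E n, ‖y‖ ≤ 1 →
      2 * b (x - δ x • y) - (L * C₅ * η * t ^ 2 + 2 * (L * (Cδ + Cg)) * t ^ 3) ≤
      b (x + t • v - (t ^ 2 / 2) • Γ x v v - δ (x + t • v - (t ^ 2 / 2) • Γ x v v) • y) +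
      b (x + (-t) • v - ((-t) ^ 2 / 2) • Γ x v v -
        δ (x + (-t) • v - ((-t) ^ 2 / 2) • Γ x v v) • y) := by
    intro t ht0 ht1 y hy
    have ht2 : t ≤ h₀ := ht1.trans (min_le_left _ _)
    have ht3 : t ≤ 1 / q := ht1.trans (min_le_right _ _)
    have ht4 : t * q ≤ 1 := by
      rwa [le_div_iff₀ (by linarith)] at ht3
    have ht5 : t ≤ 1 := by nlinarith
    have hw : ‖v - d1 • y‖ ≤ 1 := by
      have h1 : ‖d1 • y‖ ≤ η / 2 := by
        rw [norm_smul, Real.norm_eq_abs]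
        calc |d1| * ‖y‖ ≤ η / 2 * 1 := mul_le_mul hd1' hy (norm_nonneg _) (by linarith)
          _ = η / 2 := mul_one _
      have h2 := norm_sub_le v (d1 • y)
      rw [hv] at h2
      linarith
    have hz : x - δ x • y ∈ Metric.closedBall (0 : E n) (R + 1) := by
      rw [mem_closedBall_zero_iff] at hxR ⊢
      have h1 : ‖δ x • y‖ ≤ η := by
        rw [norm_smul, Real.norm_of_nonneg (hδp x).le]
        calc δ x * ‖y‖ ≤ η * 1 := mul_le_mul hx1 hy (norm_nonneg _) hη0.le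
          _ = η := mul_one _
      have h2 := norm_sub_le x (δ x • y)
      linarith
    obtain ⟨β, w', hgeo, hβ0, hw0, hβ⟩ := hge _ hz _ hw
    have habs : |t| = t := abs_of_pos ht0
    have habs' : |-t| = t := by rw [abs_neg, habs]
    have s1 := side Γ R MΓ LΓ η Cδ Cg hMΓ0 hη0 hη1 hCδ hCg hMΓ hLΓ hLΓ0 x v y hxR hv hy
      (δ x) (δ (x + t • v - (t ^ 2 / 2) • Γ x v v)) d1 d2 (hδp x).le hx1 hd1' hd2' t
      (by rw [habs]; exact ht5) (by rw [habs]; exact ht4) (tδ t (by rw [habs]; exact ht5)) (β t)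
      (hβ t (by rw [habs]; exact ht2))
    have s2 := side Γ R MΓ LΓ η Cδ Cg hMΓ0 hη0 hη1 hCδ hCg hMΓ hLΓ hLΓ0 x v y hxR hv hy
      (δ x) (δ (x + (-t) • v - ((-t) ^ 2 / 2) • Γ x v v)) d1 d2 (hδp x).le hx1 hd1' hd2' (-t)
      (by rw [habs']; exact ht5) (by rw [habs']; exact ht4) (tδ (-t) (by rw [habs']; exact ht5))
      (β (-t)) (hβ (-t) (by rw [habs']; exact ht2))
    rw [habs] at s1
    rw [habs', neg_sq] at s2
    have hc := (hcvx β w' (-h₀) h₀ (by linarith) hgeo).2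
      (show -t ∈ Icc (-h₀) h₀ from ⟨by linarith, by linarith⟩)
      (show t ∈ Icc (-h₀) h₀ from ⟨by linarith, by linarith⟩)
      (show (0 : ℝ) ≤ 1 / 2 by norm_num) (show (0 : ℝ) ≤ 1 / 2 by norm_num) (by norm_num)
    simp only [smul_eq_mul] at hc
    have e0 : (1 / 2 : ℝ) * -t + 1 / 2 * t = 0 := by ring
    rw [e0, hβ0] at hc
    have l1 := hLb _ s1.1 _ s1.2.1
    have l2 := hLb _ s2.1 _ s2.2.1
    have l1' := mul_le_mul_of_nonneg_left s1.2.2 hL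
    have l2' := mul_le_mul_of_nonneg_left s2.2.2 hL
    have k1 := (abs_le.1 l1).1
    have k2 := (abs_le.1 l2).1
    rw [neg_sq]
    have e3 : L * (t ^ 2 / 2 * (C₅ * η) + (Cδ + Cg) * t ^ 3) =
        L * C₅ * η * t ^ 2 / 2 + L * (Cδ + Cg) * t ^ 3 := by ring
    rw [e3] at l1' l2'
    linarith only [hc, k1, k2, l1', l2']
  have hlow : ∀ t, 0 < t → t ≤ min h₀ (1 / q) →
      -(L * C₅ * η * t ^ 2 + (2 * (L * (Cδ + Cg)) + 2 * CS) * t ^ 3) ≤
        t ^ 2 * Hs Γ (sm ρ b δ) x v v := by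
    intro t ht0 ht1
    have ht3 : t ≤ 1 / q := ht1.trans (min_le_right _ _)
    have ht4 : t * q ≤ 1 := by
      rwa [le_div_iff₀ (by linarith)] at ht3
    have ht5 : t ≤ 1 := by nlinarith
    have habs : |t| = t := abs_of_pos ht0
    have habs' : |-t| = t := by rw [abs_neg, habs]
    have h1 := integ ρ hρ b hbc x (x + t • v - (t ^ 2 / 2) • Γ x v v)
      (x + (-t) • v - ((-t) ^ 2 / 2) • Γ x v v) (δ x) (δ (x + t • v - (t ^ 2 / 2) • Γ x v v))
      (δ (x + (-t) • v - ((-t) ^ 2 / 2) • Γ x v v)) _ (P t ht0 ht1)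
    have h2 := tS t (by rw [habs]; exact ht5)
    have h3 := tS (-t) (by rw [habs']; exact ht5)
    rw [habs] at h2
    rw [habs', neg_sq] at h3
    rw [neg_sq] at h1
    have k2 := (abs_le.1 h2).2
    have k3 := (abs_le.1 h3).2
    have eS : ∀ p, sm ρ b δ p = ∫ y, ρ y * b (p - δ p • y) := fun p => rfl
    rw [← eS, ← eS, ← eS] at h1
    unfold Hs
    linarith only [h1, k2, k3]
  have hfin := second _ _ _ _ (by positivity) hh₁ hlow
  have hgm := (hmM x hxR2 v).1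
  rw [hv] at hgm
  refine le_trans ?_ hfin
  have h5 : ε₀ * (m * (1 / 2) ^ 2) ≤ ε₀ * g x v v := mul_le_mul_of_nonneg_left hgm hε₀.le
  nlinarith only [h5, hη2, hη0]

end Pool.Agent.Helper65.LH
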